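import Mathlib
import Pool.Agent.Lib.MP_349e33_co.Defs
import Pool.Agent.Lib.MP_349e33_co.Apex

namespace Pool.Agent.Results.MP_349e33_co.AlmostBipartite

open Pool.Agent.Lib.MP_349e33_co

universe u

/-- If `F` is a finite graph with a vertex set `A` such that `F[A]` is a forest, `F - A` is
bipartite and every component of `F - A` has at most one neighbour in `A`, then `c(F) ≤ 1`.
With `A = {v}` this covers all almost bipartite graphs. -/
theorem result {W : Type u} [Finite W] (F : SimpleGraph W) (A : Set W)
    (hforest : (F.induce A).IsAcyclic)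
    (hbip : (F.induce Aᶜ).Colorable 2)
    (hatt : ∀ u v : (Aᶜ : Set W), (F.induce Aᶜ).Reachable u v → ∀ a ∈ A, ∀ b ∈ A,
      F.Adj u a → F.Adj v b → a = b) :
    cF F ≤ 1 := by
  have h := cF_apex F A hbip hatt
  rwa [cF_forest (F.induce A) hforest, add_zero] at h

end Pool.Agent.Results.MP_349e33_co.AlmostBipartite
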