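import Mathlib
import Pool.Agent.Lib.MP_349e33_co.Defs
import Pool.Agent.Lib.MP_349e33_co.LowerBound

namespace Pool.Agent.Results.MP_349e33_co.CliqueLowerBound

open Pool.Agent.Lib.MP_349e33_co

/-- For every `m ≥ 2`, `c(K_{m+1}) ≥ (log m) / 4`. In particular `c(F)` is not bounded. -/
theorem result (m : ℕ) (hm : 2 ≤ m) :
    ENNReal.ofReal (Real.log m / 4) ≤ cF (⊤ : SimpleGraph (Fin (m + 1))) :=
  le_cF_clique m hm

end Pool.Agent.Results.MP_349e33_co.CliqueLowerBound
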