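import Mathlib
import Pool.Agent.Lib.MP_349e33_co.Defs
import Pool.Agent.Lib.MP_349e33_co.GlueDefs
import Pool.Agent.Lib.MP_349e33_co.Glue

namespace Pool.Agent.Results.MP_349e33_co.GluedPieces

open Pool.Agent.Lib.MP_349e33_co

universe u v

/-- If a finite graph `F` is built from subgraphs of `H` by disjoint unions and by successively
gluing, at single vertices `b`, connected graphs which have for every vertex `x` of `H` a copy in
`H` mapping `b` to `x`, then `c(F) ≤ c(H)`. For `H = K_m` this gives `c(F) ≤ c(K_m)` for every
graph `F` whose blocks have at most `m` vertices. -/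
theorem result {U : Type u} {W : Type v} [Finite W] (H : SimpleGraph U) (F : SimpleGraph W)
    (h : Glued H F Set.univ) : cF F ≤ cF H :=
  cF_glued h

end Pool.Agent.Results.MP_349e33_co.GluedPieces
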