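import Mathlib
import Pool.Agent.Lib.MP_349e33_co.Defs
import Pool.Agent.Lib.MP_349e33_co.GlueDefs
import Pool.Agent.Lib.MP_349e33_co.OddClass

namespace Pool.Agent.Results.MP_349e33_co.OddCycles

open Pool.Agent.Lib.MP_349e33_co

universe u

/-- If no two distinct odd cycles of the finite graph `F` share an edge (for example if `F` is a
cactus) then `c(F) ≤ 1`. -/
theorem result {W : Type u} [Finite W] (F : SimpleGraph W) (hF : OddCyclesEdgeDisjoint F) :
    cF F ≤ 1 :=
  cF_oddCyclesEdgeDisjoint F hF

end Pool.Agent.Results.MP_349e33_co.OddCycles
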